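import Pool.Agent.Helper72.GC.Family

namespace Pool.Agent.Results.MP_e3993c_co.FourCircles

open Pool.Agent.Helper72.GC
open scoped Real

/-- Moser's problem for four great circles: `S(4) = 4π²/3`, and no simple arrangement of four
great circles attains the infimum. -/
theorem result : S 4 = 4 * π ^ 2 / 3 ∧
    ∀ C : Fin 4 → Set S2, IsSimpleArrangement C → S 4 < Q C :=
  ⟨S_four, fun C hC => by rw [S_four]; exact Q_gt hC⟩

end Pool.Agent.Results.MP_e3993c_co.FourCircles
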